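import Mathlib

/-!
Combinatorial part: rectangles of the inner product function, and covering by triangles.
-/

namespace Pool.Agent.H564R2.QP

/-- The `ρ` elements of `S` with the smallest values of `f`. -/
lemma exists_small {A : Type*} [DecidableEq A] (f : A → ℝ) (S : Finset A) (ρ : ℕ)
    (h : ρ ≤ S.card) :
    ∃ S' ⊆ S, S'.card = ρ ∧ ∀ a ∈ S', ∀ a' ∈ S \ S', f a ≤ f a' := by
  induction ρ with
  | zero => exact ⟨∅, by simp, by simp, by simp⟩
  | succ ρ ih =>
    obtain ⟨S', hS', hc, hle⟩ := ih (by omega)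
    have hne : (S \ S').Nonempty := by
      rw [← Finset.card_pos, Finset.card_sdiff_of_subset hS']
      omega
    obtain ⟨a0, ha0, hmin⟩ := Finset.exists_min_image (S \ S') f hne
    rw [Finset.mem_sdiff] at ha0
    refine ⟨insert a0 S', ?_, ?_, ?_⟩
    · intro z hz
      rcases Finset.mem_insert.1 hz with rfl | hz
      · exact ha0.1
      · exact hS' hz
    · rw [Finset.card_insert_of_notMem ha0.2, hc]
    · intro a ha a' ha'
      rw [Finset.mem_sdiff, Finset.mem_insert, not_or] at ha'
      have h' : a' ∈ S \ S' := Finset.mem_sdiff.2 ⟨ha'.1, ha'.2.2⟩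
      rcases Finset.mem_insert.1 ha with rfl | ha
      · exact hmin a' h'
      · exact hle a ha a' h'

lemma tri_step {A B : Type*} [DecidableEq A] [DecidableEq B] (ρ : ℕ)
    (f : ℕ → A → ℝ) (g : ℕ → B → ℝ) (K q : ℕ) :
    ∀ (S : Finset A) (T : Finset B), K + q * ρ ≤ S.card → K + q * ρ ≤ T.card →
    (∃ S' ⊆ S, ∃ T' ⊆ T, S'.card = ρ ∧ T'.card = ρ ∧
      ∀ a ∈ S', ∀ b ∈ T', ∃ s < q, f s a < g s b) ∨
    (∃ S' ⊆ S, ∃ T' ⊆ T, K ≤ S'.card ∧ K ≤ T'.card ∧
      ∀ a ∈ S', ∀ b ∈ T', ∀ s < q, ¬ f s a < g s b) := by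
  induction q with
  | zero =>
    intro S T hS hT
    exact Or.inr ⟨S, subset_rfl, T, subset_rfl, by omega, by omega, by
      intro a _ b _ s hs; omega⟩
  | succ q ih =>
    intro S T hS hT
    have hS2 : K + q * ρ + ρ ≤ S.card := by
      have : (q + 1) * ρ = q * ρ + ρ := by ring
      omega
    have hT2 : K + q * ρ + ρ ≤ T.card := by
      have : (q + 1) * ρ = q * ρ + ρ := by ring
      omega
    obtain ⟨S1, hS1, hS1c, hS1le⟩ := exists_small (f q) S ρ (by omega)
    obtain ⟨T1, hT1, hT1c, hT1le⟩ := exists_small (fun b => - g q b) T ρ (by omega)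
    by_cases hall : ∀ a ∈ S1, ∀ b ∈ T1, f q a < g q b
    · exact Or.inl ⟨S1, hS1, T1, hT1, hS1c, hT1c, fun a ha b hb => ⟨q, by omega, hall a ha b hb⟩⟩
    · push Not at hall
      obtain ⟨a0, ha0, b0, hb0, hab⟩ := hall
      have hcS : K + q * ρ ≤ (S \ S1).card := by
        rw [Finset.card_sdiff_of_subset hS1]; omega
      have hcT : K + q * ρ ≤ (T \ T1).card := by
        rw [Finset.card_sdiff_of_subset hT1]; omega
      rcases ih (S \ S1) (T \ T1) hcS hcT with h | h
      · obtain ⟨S', hS', T', hT', h1, h2, h3⟩ := h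
        refine Or.inl ⟨S', hS'.trans Finset.sdiff_subset, T', hT'.trans Finset.sdiff_subset,
          h1, h2, ?_⟩
        intro a ha b hb
        obtain ⟨s, hs, hlt⟩ := h3 a ha b hb
        exact ⟨s, by omega, hlt⟩
      · obtain ⟨S', hS', T', hT', h1, h2, h3⟩ := h
        refine Or.inr ⟨S', hS'.trans Finset.sdiff_subset, T', hT'.trans Finset.sdiff_subset,
          h1, h2, ?_⟩
        intro a ha b hb s hs
        rcases Nat.lt_succ_iff_lt_or_eq.1 hs with hs | rfl
        · exact h3 a ha b hb s hs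
        · have e1 := hS1le a0 ha0 a (hS' ha)
          have e2 := hT1le b0 hb0 b (hT' hb)
          intro hlt
          linarith

/-- Inner product modulo two. -/
def ip {n : ℕ} (a b : Fin n → Bool) : Bool :=
  decide (Odd (Finset.univ.filter fun s => a s = true ∧ b s = true).card)

/-- sign character -/
def chi {n : ℕ} (a b : Fin n → Bool) : ℤ := ∏ s, (if a s = true ∧ b s = true then -1 else 1)

lemma chi_eq {n : ℕ} (a b : Fin n → Bool) : chi a b = if ip a b = true then -1 else 1 := by
  unfold chi ip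
  rw [Finset.prod_ite]
  simp only [Finset.prod_const, one_pow, mul_one, decide_eq_true_eq]
  split_ifs with h
  · exact h.neg_one_pow
  · rw [Nat.not_odd_iff_even] at h
    exact h.neg_one_pow

lemma chi_orth {n : ℕ} (b b' : Fin n → Bool) (h : b ≠ b') :
    ∑ a : Fin n → Bool, chi a b * chi a b' = 0 := by
  classical
  unfold chi
  simp_rw [← Finset.prod_mul_distrib]
  have key := Finset.prod_univ_sum (fun _ : Fin n => (Finset.univ : Finset Bool))
    (fun s c => (if c = true ∧ b s = true then (-1 : ℤ) else 1) *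
      (if c = true ∧ b' s = true then (-1 : ℤ) else 1))
  rw [Fintype.piFinset_univ] at key
  rw [← key]
  obtain ⟨s, hs⟩ := Function.ne_iff.1 h
  apply Finset.prod_eq_zero (Finset.mem_univ s)
  rcases hb : b s <;> rcases hb' : b' s <;> simp_all

lemma chi_self {n : ℕ} (a b : Fin n → Bool) : chi a b * chi a b = 1 := by
  rw [chi_eq]; split_ifs <;> norm_num

lemma rect_bound {n : ℕ} (S T : Finset (Fin n → Bool)) (c : Bool)
    (h : ∀ a ∈ S, ∀ b ∈ T, ip a b = c) (hT : T.Nonempty) : S.card * T.card ≤ 2 ^ n := by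
  classical
  have hsum : ∑ a : Fin n → Bool, (∑ b ∈ T, chi a b) ^ 2 = 2 ^ n * (T.card : ℤ) := by
    have : ∀ a : Fin n → Bool, (∑ b ∈ T, chi a b) ^ 2 = ∑ b ∈ T, ∑ b' ∈ T, chi a b * chi a b' := by
      intro a
      rw [sq, Finset.sum_mul_sum]
    simp_rw [this]
    rw [Finset.sum_comm]
    have : ∀ b ∈ T, ∑ a : Fin n → Bool, ∑ b' ∈ T, chi a b * chi a b' = 2 ^ n := by
      intro b hb
      rw [Finset.sum_comm]
      rw [Finset.sum_eq_single b]
      · simp_rw [chi_self]
        simp
      · intro b' _ hne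
        exact chi_orth b b' (Ne.symm hne)
      · intro hb'; exact absurd hb hb'
    rw [Finset.sum_congr rfl this]
    simp [mul_comm]
  have hS : (S.card : ℤ) * (T.card : ℤ) ^ 2 ≤ 2 ^ n * (T.card : ℤ) := by
    rw [← hsum]
    calc (S.card : ℤ) * (T.card : ℤ) ^ 2 = ∑ a ∈ S, (∑ b ∈ T, chi a b) ^ 2 := by
          rw [← nsmul_eq_mul, ← Finset.sum_const]
          apply Finset.sum_congr rfl
          intro a ha
          have : ∑ b ∈ T, chi a b = ∑ b ∈ T, (if c = true then (-1 : ℤ) else 1) := by
            apply Finset.sum_congr rfl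
            intro b hb
            rw [chi_eq, h a ha b hb]
          rw [this, Finset.sum_const]
          split_ifs <;> simp
      _ ≤ ∑ a : Fin n → Bool, (∑ b ∈ T, chi a b) ^ 2 := by
          apply Finset.sum_le_sum_of_subset_of_nonneg (Finset.subset_univ S)
          intro a _ _
          positivity
  have hTpos : (0 : ℤ) < (T.card : ℤ) := by exact_mod_cast Finset.card_pos.2 hT
  have h3 : (S.card : ℤ) * (T.card : ℤ) ≤ 2 ^ n := by
    have : ((S.card : ℤ) * (T.card : ℤ)) * (T.card : ℤ) ≤ 2 ^ n * (T.card : ℤ) := by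
      nlinarith [hS]
    exact le_of_mul_le_mul_right this hTpos
  exact_mod_cast h3

/-- Main combinatorial lemma: a list of `N` events with colours, event `j` being a union of `μ j`
triangles, whose first firing event always has the colour `ip a b`. -/
lemma cost_bound {m : ℕ} (N : ℕ) (ev : ℕ → (Fin (2 * m) → Bool) → (Fin (2 * m) → Bool) → Prop)
    (col : ℕ → Bool) (μ : ℕ → ℕ)
    (f : ℕ → ℕ → (Fin (2 * m) → Bool) → ℝ) (g : ℕ → ℕ → (Fin (2 * m) → Bool) → ℝ)
    (hev : ∀ j < N, ∀ a b, ev j a b ↔ ∃ s < μ j, f j s a < g j s b)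
    (hfirst : ∀ a b, ∃ j < N, ev j a b ∧ col j = ip a b ∧ ∀ j' < j, ¬ ev j' a b) :
    2 ^ m ≤ ∑ j ∈ Finset.range N, μ j := by
  classical
  by_contra hcon
  push Not at hcon
  set ρ : ℕ := 2 ^ m + 1 with hρ
  -- invariant
  have inv : ∀ j ≤ N, ∃ S T : Finset (Fin (2 * m) → Bool),
      1 + (∑ i ∈ Finset.Ico j N, μ i) * ρ ≤ S.card ∧ 1 + (∑ i ∈ Finset.Ico j N, μ i) * ρ ≤ T.card ∧
      ∀ a ∈ S, ∀ b ∈ T, ∀ j' < j, ¬ ev j' a b := by
    intro j
    induction j with
    | zero =>
      intro _
      refine ⟨Finset.univ, Finset.univ, ?_, ?_, by intro a _ b _ j' hj'; omega⟩ <;>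
      · simp only [Finset.card_univ, Fintype.card_fun, Fintype.card_bool, Fintype.card_fin]
        rw [← Finset.range_eq_Ico]
        have h1 : (∑ i ∈ Finset.range N, μ i) ≤ 2 ^ m - 1 := by omega
        have h2 : (∑ i ∈ Finset.range N, μ i) * ρ ≤ (2 ^ m - 1) * ρ := Nat.mul_le_mul_right _ h1
        have h3 : 1 + (2 ^ m - 1) * ρ = 2 ^ (2 * m) := by
          have hp : 1 ≤ 2 ^ m := Nat.one_le_two_pow
          obtain ⟨t, ht⟩ := Nat.exists_eq_add_of_le hp
          rw [hρ, pow_mul', ht]
          have : 1 + t - 1 = t := by omega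
          rw [this]; ring
        omega
    | succ j ih =>
      intro hj
      obtain ⟨S, T, hS, hT, hno⟩ := ih (by omega)
      have hsplit : ∑ i ∈ Finset.Ico j N, μ i = μ j + ∑ i ∈ Finset.Ico (j + 1) N, μ i := by
        rw [Finset.sum_eq_sum_Ico_succ_bot (by omega : j < N)]
      have harr : 1 + (∑ i ∈ Finset.Ico j N, μ i) * ρ
          = (1 + (∑ i ∈ Finset.Ico (j + 1) N, μ i) * ρ) + μ j * ρ := by
        rw [hsplit]; ring
      rw [harr] at hS hT
      rcases tri_step ρ (f j) (g j) (1 + (∑ i ∈ Finset.Ico (j + 1) N, μ i) * ρ) (μ j) S T hS hT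
        with h | h
      · exfalso
        obtain ⟨S', hS', T', hT', h1, h2, h3⟩ := h
        have hmono : ∀ a ∈ S', ∀ b ∈ T', ip a b = col j := by
          intro a ha b hb
          obtain ⟨j0, hj0, he, hc, hfst⟩ := hfirst a b
          have hevj : ev j a b := (hev j (by omega) a b).2 (h3 a ha b hb)
          rcases lt_trichotomy j0 j with hlt | rfl | hgt
          · exact absurd he (hno a (hS' ha) b (hT' hb) j0 hlt)
          · exact hc.symm
          · exact absurd hevj (hfst j hgt)
        have hT'ne : T'.Nonempty := by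
          rw [← Finset.card_pos, h2]; omega
        have := rect_bound S' T' (col j) hmono hT'ne
        rw [h1, h2, pow_mul'] at this
        have h9 : (2 ^ m + 1) * (2 ^ m + 1) ≤ (2 ^ m) ^ 2 := by rw [hρ] at this; exact this
        generalize (2 ^ m : ℕ) = z at h9
        nlinarith
      · obtain ⟨S', hS', T', hT', h1, h2, h3⟩ := h
        refine ⟨S', T', h1, h2, ?_⟩
        intro a ha b hb j' hj'
        rcases Nat.lt_succ_iff_lt_or_eq.1 hj' with hj' | rfl
        · exact hno a (hS' ha) b (hT' hb) j' hj'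
        · rw [hev _ (by omega)]
          rintro ⟨s, hs, hlt⟩
          exact h3 a ha b hb s hs hlt
  obtain ⟨S, T, hS, hT, hno⟩ := inv N le_rfl
  have hSn : S.Nonempty := by rw [← Finset.card_pos]; omega
  have hTn : T.Nonempty := by rw [← Finset.card_pos]; omega
  obtain ⟨a, ha⟩ := hSn
  obtain ⟨b, hb⟩ := hTn
  obtain ⟨j0, hj0, he, _, _⟩ := hfirst a b
  exact hno a ha b hb j0 hj0 he

lemma ip_surj {n : ℕ} (hn : 1 ≤ n) (c : Bool) : ∃ a b : Fin n → Bool, ip a b = c := by
  cases c with
  | false => exact ⟨fun _ => false, fun _ => false, by simp [ip]⟩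
  | true =>
    refine ⟨fun s => decide (s = ⟨0, hn⟩), fun _ => true, ?_⟩
    have : (Finset.univ.filter fun s : Fin n =>
        decide (s = ⟨0, hn⟩) = true ∧ (true : Bool) = true) = {⟨0, hn⟩} := by
      ext s; simp
    have h2 : ip (fun s => decide (s = ⟨0, hn⟩)) (fun _ : Fin n => true)
        = decide (Odd (Finset.univ.filter fun s : Fin n =>
        decide (s = ⟨0, hn⟩) = true ∧ (true : Bool) = true).card) := rfl
    rw [h2, this]
    simp

/-- partial inner products -/
def tv {n : ℕ} (a b : Fin n → Bool) (s : ℕ) : Bool :=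
  decide (Odd (Finset.univ.filter fun q : Fin n => q.val < s ∧ a q = true ∧ b q = true).card)

lemma tv_zero {n : ℕ} (a b : Fin n → Bool) : tv a b 0 = false := by
  simp [tv]

lemma tv_last {n : ℕ} (a b : Fin n → Bool) : tv a b n = ip a b := by
  simp [tv, ip]

lemma tv_succ {n : ℕ} (a b : Fin n → Bool) (s : Fin n) :
    tv a b (s.val + 1) = xor (tv a b s.val) (a s && b s) := by
  by_cases h : a s = true ∧ b s = true
  · have e : (Finset.univ.filter fun q : Fin n => q.val < s.val + 1 ∧ a q = true ∧ b q = true)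
        = insert s (Finset.univ.filter fun q : Fin n => q.val < s.val ∧ a q = true ∧ b q = true) := by
      ext q
      simp only [Finset.mem_filter, Finset.mem_univ, true_and, Finset.mem_insert]
      constructor
      · rintro ⟨h1, h2⟩
        rcases Nat.lt_succ_iff_lt_or_eq.1 h1 with h1 | h1
        · exact Or.inr ⟨h1, h2⟩
        · exact Or.inl (Fin.ext h1)
      · rintro (rfl | ⟨h1, h2⟩)
        · exact ⟨by omega, h⟩
        · exact ⟨by omega, h2⟩
    unfold tv
    rw [e, Finset.card_insert_of_notMem (by simp), h.1, h.2]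
    rw [Bool.and_self, Bool.xor_true]
    generalize (Finset.univ.filter fun q : Fin n =>
      q.val < s.val ∧ a q = true ∧ b q = true).card = c
    by_cases hc : Odd c
    · have : ¬ Odd (c + 1) := by rw [Nat.odd_add_one]; simpa using hc
      simp [hc, this]
    · have : Odd (c + 1) := by rw [Nat.odd_add_one]; exact hc
      simp only [hc, this, decide_true, decide_false, Bool.not_false]
  · have e : (Finset.univ.filter fun q : Fin n => q.val < s.val + 1 ∧ a q = true ∧ b q = true)
        = (Finset.univ.filter fun q : Fin n => q.val < s.val ∧ a q = true ∧ b q = true) := by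
      ext q
      simp only [Finset.mem_filter, Finset.mem_univ, true_and]
      constructor
      · rintro ⟨h1, h2⟩
        rcases Nat.lt_succ_iff_lt_or_eq.1 h1 with h1 | h1
        · exact ⟨h1, h2⟩
        · have : q = s := Fin.ext h1
          subst this
          exact absurd h2 h
      · rintro ⟨h1, h2⟩
        exact ⟨by omega, h2⟩
    unfold tv
    rw [e]
    have : (a s && b s) = false := by
      rw [Bool.and_eq_false_iff]
      by_contra hc
      push Not at hc
      simp at hc
      exact h hc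
    rw [this, Bool.xor_false]

end Pool.Agent.H564R2.QP
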