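import Pool.Agent.H564R2.QPComb

/-!
# Refutations of quantified Boolean formulas with help for games with few looks

A (prenex) quantified Boolean formula over the set of variables `V` is given by the quantifier
block `rank v` of every variable, by the set of universal variables, and by the clauses of its
matrix. A clause is a list of literals, a literal is a pair of a variable and the value which makes
it true.
-/

namespace Pool.Agent.H564R2.QP

/-- A quantified Boolean formula. Variables of smaller rank are quantified further to the left. -/
structure QBF (V : Type) where
  rank : V → ℕ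
  univ : Set V
  clause : Set (List (V × Bool))

variable {V : Type}

/-- The matrix is true under the assignment `α`. -/
def QBF.Matrix (Φ : QBF V) (α : V → Bool) : Prop :=
  ∀ C ∈ Φ.clause, ∃ z ∈ C, α z.1 = z.2

/-- Both assignments have the same values on the variables of rank less than `p`. -/
def QBF.Agree (Φ : QBF V) (p : ℕ) (α β : V → Bool) : Prop :=
  ∀ v, Φ.rank v < p → α v = β v

/-- After the variables of rank less than `p` have got their values as in `α`, the universal
player has a winning strategy `σ` for the rest of the game which needs at most `k` looks at the
moves: the value of a universal variable `u` is determined by the values of the variables of rank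
less than `c u`, where `c u` is at most the rank of `u`, and `c` takes at most `k` values on the
universal variables which are still to be played. (So the formula remains false when the universal
variables of rank at least `p` are moved to the left into at most `k` blocks.) -/
def QBF.WinsWithLooks (Φ : QBF V) (k p : ℕ) (α : V → Bool) : Prop :=
  ∃ (C : Finset ℕ) (c : V → ℕ) (σ : V → (V → Bool) → Bool), C.card ≤ k ∧
    (∀ u ∈ Φ.univ, p ≤ Φ.rank u → c u ∈ C ∧ c u ≤ Φ.rank u ∧
      ∀ β γ, Φ.Agree (c u) β γ → σ u β = σ u γ) ∧
    ∀ β, Φ.Agree p α β → (∀ u ∈ Φ.univ, p ≤ Φ.rank u → β u = σ u β) → ¬ Φ.Matrix β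

/-- The kinds of steps of a refutation: semantic inference; universal reduction of line `j`, which
gives the universal variable `u` the value `b`; axiom about the positions of rank `p`. -/
inductive Step (V : Type)
  | sem
  | red (j : ℕ) (u : V) (b : Bool)
  | ax (p : ℕ)

/-- Line `i` (an arbitrary Boolean function of the variables) is correctly derived.
* Semantic inference: it follows from the matrix and all the earlier lines.
* Reduction: it is an earlier line, which does not depend on variables to the right of (the block
  of) the universal variable `u`, with `b` substituted for `u`.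
* Axiom: it depends on the variables of rank less than `p` only, and in every position which
  falsifies it, the universal player wins with at most `k` looks. -/
def Correct [DecidableEq V] (Φ : QBF V) (k : ℕ) (line : ℕ → (V → Bool) → Prop) (i : ℕ) : Step V → Prop
  | .sem => ∀ α, Φ.Matrix α → (∀ j < i, line j α) → line i α
  | .red j u b => j < i ∧ u ∈ Φ.univ ∧
      (∀ α β, Φ.Agree (Φ.rank u + 1) α β → (line j α ↔ line j β)) ∧
      ∀ α, line i α ↔ line j (Function.update α u b)
  | .ax p => (∀ α β, Φ.Agree p α β → (line i α ↔ line i β)) ∧
      ∀ α, ¬ line i α → Φ.WinsWithLooks k p α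

/-- A refutation of `Φ` modulo games with `k` looks: a list of correctly derived lines, one of
which is the constant false. -/
structure Refutation [DecidableEq V] (Φ : QBF V) (k : ℕ) where
  len : ℕ
  line : ℕ → (V → Bool) → Prop
  step : ℕ → Step V
  correct : ∀ i < len, Correct Φ k line i (step i)
  last : ∃ i < len, ∀ α, ¬ line i α

/-- Line `j` is derived by a universal reduction of the variable `u`. -/
def Refutation.Reduces [DecidableEq V] {Φ : QBF V} {k : ℕ} (R : Refutation Φ k) (u : V) (j : ℕ) : Prop :=
  ∃ j' b, R.step j = .red j' u b

/-- The variables of the formula `game r n`. -/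
inductive Var (r n : ℕ)
  | x (l : Fin r) (s : Fin n)
  | y (l : Fin r) (s : Fin n)
  | w (l : Fin r)
  | t (l : Fin r) (s : Fin (n + 1))
  | e (l : Fin (r + 1))

noncomputable instance instDecVar {r n : ℕ} : DecidableEq (Var r n) := Classical.decEq _

/-- The blocks of `game r n`: for `l = 0, ..., r - 1` the existential variables `x l s`, `y l s`,
and then the universal variable `w l`; finally the existential variables `t l s`, `e l`. -/
def rk {r n : ℕ} : Var r n → ℕ
  | .x l _ => 2 * l.val
  | .y l _ => 2 * l.val
  | .w l => 2 * l.val + 1
  | .t _ _ => 2 * r
  | .e _ => 2 * r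

/-- The clauses of `game r n`. They say that `t l 0 = 0`, `t l (s+1) = t l s + x l s * y l s`
modulo 2 (so that `t l n` is the inner product modulo 2 of `x l` and `y l`), that `e 0` is false,
that `e (l+1)` implies `e l` or `w l ≠ t l n`, and that `e r` is true. -/
inductive IsClause (r n : ℕ) : List (Var r n × Bool) → Prop
  | t0 (l) : IsClause r n [(.t l 0, false)]
  | tx1 (l s) : IsClause r n [(.x l s, true), (.t l s.castSucc, false), (.t l s.succ, true)]
  | tx2 (l s) : IsClause r n [(.x l s, true), (.t l s.castSucc, true), (.t l s.succ, false)]
  | ty1 (l s) : IsClause r n [(.y l s, true), (.t l s.castSucc, false), (.t l s.succ, true)]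
  | ty2 (l s) : IsClause r n [(.y l s, true), (.t l s.castSucc, true), (.t l s.succ, false)]
  | txy1 (l s) : IsClause r n
      [(.x l s, false), (.y l s, false), (.t l s.castSucc, true), (.t l s.succ, true)]
  | txy2 (l s) : IsClause r n
      [(.x l s, false), (.y l s, false), (.t l s.castSucc, false), (.t l s.succ, false)]
  | e0 : IsClause r n [(.e 0, false)]
  | ew1 (l) : IsClause r n
      [(.e l.succ, false), (.e l.castSucc, true), (.w l, true), (.t l (Fin.last n), true)]
  | ew2 (l) : IsClause r n
      [(.e l.succ, false), (.e l.castSucc, true), (.w l, false), (.t l (Fin.last n), false)]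
  | er : IsClause r n [(.e (Fin.last r), true)]

/-- The formula: `∃ x₀ y₀ ∀ w₀ ∃ x₁ y₁ ∀ w₁ ... ∃ t e`, some `w l` is not the inner product
modulo 2 of `x l` and `y l`, written with `4`-clauses. -/
def game (r n : ℕ) : QBF (Var r n) where
  rank := rk
  univ := Set.range .w
  clause := {C | IsClause r n C}

/-- `h` with the moves of the existential player in round `i` replaced by `a` and `b`. -/
def put {r n : ℕ} (i : Fin r) (a b : Fin n → Bool) (h : Var r n → Bool) : Var r n → Bool
  | .x l s => if l = i then a s else h (.x l s)
  | .y l s => if l = i then b s else h (.y l s)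
  | v => h v

/-- `F` is a union of at most `q` triangles, that is, sets of the form
`{(a, b) | f a < g b}` for real functions `f`, `g`. -/
def Triangles {A B : Type} (q : ℕ) (F : A → B → Prop) : Prop :=
  ∃ (f : Fin q → A → ℝ) (g : Fin q → B → ℝ), ∀ a b, F a b ↔ ∃ s, f s a < g s b

/-- The Boolean function `F` is given by a linear inequality with real coefficients (for example,
by a clause). -/
def Threshold (F : (V → Bool) → Prop) : Prop :=
  ∃ (A : ℝ) (c : V → ℝ), ∀ α, F α ↔ A ≤ ∑ᶠ v, if α v = true then c v else 0

end Pool.Agent.H564R2.QP
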